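import Pool.Graph.R_pool_sql_team_seeded_3997aac3.Helper25.HTwo.Epi
import Pool.Graph.R_pool_sql_team_seeded_3997aac3.Helper25.HTwo.Cross

set_option autoImplicit false

/-!
Groups which map onto (or almost onto) Houghton's group `H₂` with torsion kernel have no regular
set of representatives in which every element has only finitely many representatives.
-/

namespace Pool.Agent.KS6_95.EH

open Pool.Agent.Helper25.HTwo

universe u

/-- The evaluation map: the product in `G` of the letters of a word over `X ⊆ G`. -/
def evl {G : Type u} [Group G] (X : Finset G) (w : List X) : G := (w.map fun x => (x : G)).prod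

theorem evl_append {G : Type u} [Group G] (X : Finset G) (u v : List X) :
    evl X (u ++ v) = evl X u * evl X v := by
  simp [evl]

theorem evalFrom_replicate' {α : Type u} {σ : Type} (M : DFA α σ) (q : σ) (v : List α)
    (h : M.evalFrom q v = q) (r : ℕ) : M.evalFrom q (List.replicate r v).flatten = q := by
  induction r with
  | zero => simp
  | succ r ih => rw [List.replicate_succ, List.flatten_cons, DFA.evalFrom_of_append, h, ih]

theorem evl_replicate {G : Type u} [Group G] (X : Finset G) (v : List X) (r : ℕ) :
    evl X (List.replicate r v).flatten = (evl X v) ^ r := by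
  induction r with
  | zero => rw [pow_zero]; rfl
  | succ r ih => rw [List.replicate_succ, List.flatten_cons, evl_append, ih, pow_succ']

section

variable {G : Type u} [Group G]

/-- If a state is visited twice at the same height, then some element has infinitely many
representatives. -/
theorem visits' (f : G →* H2) (htor : ∀ g, f g = 1 → IsOfFinOrder g) {X : Finset G} {σ : Type}
    (M : DFA X σ) (hfin : ∀ g : G, {w | w ∈ M.accepts ∧ evl X w = g}.Finite) {w : List X}
    (hw : w ∈ M.accepts)
    {i j : ℕ} (hij : i < j) (hj : j ≤ w.length) (hq : M.eval (w.take i) = M.eval (w.take j))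
    (ht : tau (f (evl X (w.take i))) = tau (f (evl X (w.take j)))) : False := by
  set u := w.take i with hu
  set v := (w.take j).drop i with hv
  set z := w.drop j with hz
  have e1 : w.take j = u ++ v := by
    have h1 : w.take i = (w.take j).take i := by
      rw [List.take_take, min_eq_left hij.le]
    rw [hu, hv, h1, List.take_append_drop]
  have e2 : w = u ++ v ++ z := by
    rw [← e1, hz, List.take_append_drop]
  have hvl : 0 < v.length := by
    rw [hv, List.length_drop, List.length_take]
    omega
  have hloop : M.evalFrom (M.eval u) v = M.eval u := by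
    have : M.eval (u ++ v) = M.evalFrom (M.eval u) v := by
      simp [DFA.eval, DFA.evalFrom_of_append]
    rw [← this, ← e1, ← hq]
  have htv : tau (f (evl X v)) = 0 := by
    rw [e1, evl_append, map_mul, tau_mul] at ht
    omega
  obtain ⟨r₁, hr₁, hr₁'⟩ := finite_order htv
  have h3 : f ((evl X v) ^ r₁) = 1 := by rw [map_pow, hr₁']
  obtain ⟨r₂, hr₂, hr₂'⟩ := isOfFinOrder_iff_pow_eq_one.1 (htor _ h3)
  have hr : (evl X v) ^ (r₁ * r₂) = 1 := by rw [pow_mul, hr₂']
  have hr0 : 0 < r₁ * r₂ := Nat.mul_pos hr₁ hr₂
  let W : ℕ → List X := fun k => u ++ (List.replicate (r₁ * r₂ * k + 1) v).flatten ++ z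
  have hacc : ∀ k, W k ∈ M.accepts := by
    intro k
    rw [DFA.mem_accepts] at hw ⊢
    rw [e2] at hw
    have h1 : M.eval (W k) = M.eval (u ++ v ++ z) := by
      simp only [W, DFA.eval, DFA.evalFrom_of_append]
      have h2 : M.evalFrom M.start u = M.eval u := rfl
      rw [h2, hloop, evalFrom_replicate' M _ v hloop]
    rw [h1]
    exact hw
  have hev : ∀ k, evl X (W k) = evl X w := by
    intro k
    conv_rhs => rw [e2]
    simp only [W]
    rw [evl_append, evl_append, evl_append, evl_append, evl_replicate, pow_succ, pow_mul, hr,
      one_pow, one_mul]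
  have hinj : Function.Injective W := by
    intro k l hkl
    have hlen := congrArg List.length hkl
    simp only [W, List.length_append, List.length_flatten, List.map_replicate, List.sum_replicate,
      smul_eq_mul] at hlen
    have h5 : (r₁ * r₂ * k + 1) * v.length = (r₁ * r₂ * l + 1) * v.length := by omega
    have h6 := Nat.eq_of_mul_eq_mul_right hvl h5
    have h7 : r₁ * r₂ * k = r₁ * r₂ * l := by omega
    exact Nat.eq_of_mul_eq_mul_left hr0 h7
  exact (Set.infinite_range_of_injective hinj) ((hfin (evl X w)).subset (by
    rintro _ ⟨k, rfl⟩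
    exact ⟨hacc k, hev k⟩))

theorem Blk_ne_one {k : ℕ} (hk : 0 < k) : Blk (k : ℤ) ≠ 1 := by
  intro h
  have h1 : (Blk (k : ℤ)).1 0 = 0 := by rw [h]; rfl
  change blk k 0 = 0 at h1
  unfold blk at h1
  split_ifs at h1 <;> omega

/-- **Obstruction.** If `f : G → H₂` has torsion kernel and its image contains all permutations of
finite support, then every regular language over a finite subset of `G` which represents all
nontrivial elements of `G` represents some element infinitely often. -/
theorem infinite_fibre (f : G →* H2) (htor : ∀ g, f g = 1 → IsOfFinOrder g)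
    (himg : ∀ h : H2, {n : ℤ | h.1 n ≠ n}.Finite → ∃ g, f g = h)
    (X : Finset G) (L : Language X) (hL : L.IsRegular) (hsurj : ∀ g : G, g ≠ 1 → ∃ w ∈ L, evl X w = g) :
    ∃ g : G, {w | w ∈ L ∧ evl X w = g}.Infinite := by
  classical
  by_contra hcon
  push Not at hcon
  have hfin : ∀ g : G, {w | w ∈ L ∧ evl X w = g}.Finite := fun g => by
    have := hcon g
    exact this
  obtain ⟨σ, hσ, M, rfl⟩ := hL
  -- the image alphabet
  let Y : Finset H2 := X.image f
  let m : X → Y := fun x => ⟨f x, Finset.mem_image_of_mem _ x.2⟩
  have hev : ∀ w : List X, ev Y (w.map m) = f (evl X w) := by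
    intro w
    induction w with
    | nil => exact (map_one f).symm
    | cons x w ih =>
      rw [List.map_cons, ev_cons, ih]
      have h1 : evl X (x :: w) = (x : G) * evl X w := by simp [evl]
      rw [h1, map_mul]
  obtain ⟨C, hC⟩ := E_support Y
  obtain ⟨B, hB⟩ := E_bound Y
  have hpos : 0 < B * (Fintype.card σ * C.card) + 1 := Nat.succ_pos _
  obtain ⟨g, hg⟩ := himg (Blk ((B * (Fintype.card σ * C.card) + 1 : ℕ) : ℤ)) (by
    have h1 := tau_spec (Blk ((B * (Fintype.card σ * C.card) + 1 : ℕ) : ℤ))
    rw [Blk_tau] at h1
    simpa using h1)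
  have hg1 : g ≠ 1 := by
    rintro rfl
    rw [map_one] at hg
    exact Blk_ne_one hpos hg.symm
  obtain ⟨w, hw, hwe⟩ := hsurj g hg1
  have h1 := E_word Y C B hC hB 0 (w.map m)
  have h2 : ((Finset.range (w.map m).length).filter
      fun i => 0 - tau (ev Y ((w.map m).take i)) ∈ C).card ≤
      ((Finset.univ : Finset σ) ×ˢ C).card := by
    refine Finset.card_le_card_of_injOn
      (fun i => (M.eval (w.take i), 0 - tau (ev Y ((w.map m).take i)))) ?_ ?_
    · intro i hi
      rw [Finset.mem_coe, Finset.mem_filter] at hi
      rw [Finset.mem_coe, Finset.mem_product]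
      exact ⟨Finset.mem_univ _, hi.2⟩
    · intro i hi j hj hij
      rw [Finset.mem_coe, Finset.mem_filter, Finset.mem_range, List.length_map] at hi hj
      simp only [Prod.mk.injEq, ← List.map_take, hev] at hij
      rcases lt_trichotomy i j with h | h | h
      · exact (visits' f htor M hfin hw h hj.1.le hij.1 (by omega)).elim
      · exact h
      · exact (visits' f htor M hfin hw h hi.1.le hij.1.symm (by omega)).elim
  rw [Finset.card_product, Finset.card_univ] at h2
  have h3 := Blk_E (B * (Fintype.card σ * C.card) + 1)
  rw [← hg, ← hwe, ← hev] at h3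
  have h4 := h3.trans (h1.trans (Nat.mul_le_mul_left B h2))
  omega

end

end Pool.Agent.KS6_95.EH
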