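import Pool.Agent.KS6_95.EH.Cover

set_option autoImplicit false

/-!
The groups `H₂ × K` with `K` finite are epiRegular; their centres are the centres of the `K`.
-/

namespace Pool.Agent.KS6_95.EH

open Pool.Agent.Helper25.HTwo

section

variable (K : Type) [Group K] [Finite K]

/-- The alphabet of `H₂ × K`: the letters of `H₂` and all elements of `K`. -/
noncomputable def alphK : Finset (H2 × K) := by
  classical
  haveI := Fintype.ofFinite K
  exact alph.image (fun h => (h, (1 : K))) ∪ Finset.univ.image (fun k => ((1 : H2), k))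

variable {K}

theorem mem_alphK_left {h : H2} (hh : h ∈ alph) : (h, (1 : K)) ∈ alphK K := by
  classical
  unfold alphK
  rw [Finset.mem_union]
  exact Or.inl (Finset.mem_image_of_mem _ hh)

theorem mem_alphK_right (k : K) : ((1 : H2), k) ∈ alphK K := by
  classical
  unfold alphK
  rw [Finset.mem_union]
  refine Or.inr ?_
  rw [Finset.mem_image]
  exact ⟨k, @Finset.mem_univ K (Fintype.ofFinite K) k, rfl⟩

theorem of_mem_alphK {x : H2 × K} (hx : x ∈ alphK K) : (x.1 ∈ alph ∧ x.2 = 1) ∨ x.1 = 1 := by
  classical
  unfold alphK at hx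
  rw [Finset.mem_union, Finset.mem_image, Finset.mem_image] at hx
  rcases hx with ⟨h, hh, rfl⟩ | ⟨k, -, rfl⟩
  · exact Or.inl ⟨hh, rfl⟩
  · exact Or.inr rfl

theorem alphK_top : Submonoid.closure (alphK K : Set (H2 × K)) = ⊤ := by
  rw [eq_top_iff]
  rintro ⟨h, k⟩ -
  have h1 : (h, (1 : K)) ∈ Submonoid.closure (alphK K : Set (H2 × K)) := by
    have h2 : h ∈ Submonoid.closure (alph : Set H2) := by rw [alph_top]; trivial
    induction h2 using Submonoid.closure_induction with
    | mem x hx => exact Submonoid.subset_closure (mem_alphK_left hx)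
    | one => exact Submonoid.one_mem _
    | mul x y _ _ hx hy =>
      have := Submonoid.mul_mem _ hx hy
      simpa using this
  have h2 : ((1 : H2), k) ∈ Submonoid.closure (alphK K : Set (H2 × K)) :=
    Submonoid.subset_closure (mem_alphK_right k)
  have := Submonoid.mul_mem _ h1 h2
  simpa using this

open Classical in
/-- The `H₂`-part of a word. -/
noncomputable def hpart (w : List (alphK K)) : List alph :=
  List.filterMap (fun x : alphK K => if h : (x : H2 × K).1 ∈ alph ∧ (x : H2 × K).2 = 1 then
    some (⟨(x : H2 × K).1, h.1⟩ : alph) else none) w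

theorem hpart_append (u v : List (alphK K)) : hpart (u ++ v) = hpart u ++ hpart v := by
  unfold hpart
  rw [List.filterMap_append]

theorem hpart_cons (x : alphK K) (w : List (alphK K)) :
    hpart (x :: w) = hpart [x] ++ hpart w := by
  rw [← hpart_append]
  rfl

theorem evl_cons {G : Type} [Group G] (X : Finset G) (x : X) (w : List X) :
    evl X (x :: w) = (x : G) * evl X w := by simp [evl]

theorem evl_hpart (w : List (alphK K)) : evl alph (hpart w) = (evl (alphK K) w).1 := by
  induction w with
  | nil => rfl
  | cons x w ih =>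
    rw [hpart_cons, evl_append, ih, evl_cons, Prod.fst_mul]
    congr 1
    by_cases h : (x : H2 × K).1 ∈ alph ∧ (x : H2 × K).2 = 1
    · have : hpart [x] = [⟨(x : H2 × K).1, h.1⟩] := by
        unfold hpart
        simp [h]
      rw [this]
      simp [evl]
    · have h2 : hpart [x] = [] := by
        unfold hpart
        simp [h]
      rw [h2]
      rcases of_mem_alphK x.2 with h3 | h3
      · exact absurd h3 h
      · rw [h3]; rfl

/-- The preimage of a regular language under `hpart` is regular. -/
theorem regular_hpart {L : Language alph} (hL : L.IsRegular) :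
    Language.IsRegular ({w | hpart w ∈ L} : Language (alphK K)) := by
  obtain ⟨σ, hσ, M, rfl⟩ := hL
  let M' : DFA (alphK K) σ := ⟨fun s x => M.evalFrom s (hpart [x]), M.start, M.accept⟩
  refine ⟨σ, hσ, M', ?_⟩
  have h1 : ∀ (w : List (alphK K)) (s : σ), M'.evalFrom s w = M.evalFrom s (hpart w) := by
    intro w
    induction w with
    | nil => intro s; rfl
    | cons x w ih =>
      intro s
      rw [hpart_cons, DFA.evalFrom_of_append, ← ih]
      rfl
  ext w
  change M'.evalFrom M'.start w ∈ M.accept ↔ M.evalFrom M.start (hpart w) ∈ M.accept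
  rw [h1]

/-- Lift of a word of `H₂`. -/
noncomputable def lift (u : List alph) : List (alphK K) :=
  List.map (fun x : alph => (⟨((x : H2), 1), mem_alphK_left x.2⟩ : alphK K)) u

theorem hpart_lift (u : List alph) : hpart (lift (K := K) u) = u := by
  induction u with
  | nil => rfl
  | cons x u ih =>
    have h1 : lift (K := K) (x :: u) = ⟨(x, 1), mem_alphK_left x.2⟩ :: lift u := rfl
    rw [h1, hpart_cons, ih]
    have : hpart [(⟨((x : H2), (1 : K)), mem_alphK_left x.2⟩ : alphK K)] = [x] := by
      unfold hpart
      simp
    rw [this]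
    rfl

theorem evl_lift (u : List alph) : evl (alphK K) (lift u) = (evl alph u, 1) := by
  induction u with
  | nil => rfl
  | cons x u ih =>
    have h1 : lift (K := K) (x :: u) = ⟨(x, 1), mem_alphK_left x.2⟩ :: lift u := rfl
    rw [h1, evl_cons, ih, evl_cons]
    simp

theorem evl_eq_ev {G : Type} [Group G] (X : Finset G) : evl X = ev X := rfl

/-- The language which represents exactly the nontrivial elements of `H₂ × K`. -/
theorem exists_language : ∃ L : Language (alphK K), L.IsRegular ∧ [] ∉ L ∧
    evl (alphK K) '' {w | w ∈ L} = {g : H2 × K | g ≠ 1} := by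
  obtain ⟨L₀, hL₀, hL₀'⟩ := rat_ne_one
  have hnil : [] ∉ L₀ := by
    intro h
    have h1 : (1 : H2) ∈ ev alph '' L₀ := ⟨[], h, ev_nil alph⟩
    rw [hL₀'] at h1
    exact h1 rfl
  let F : Language (alphK K) := {w | ∃ k : K, k ≠ 1 ∧ w = [⟨(1, k), mem_alphK_right k⟩]}
  have hF : Set.Finite {w | w ∈ F} := by
    refine (Set.finite_range fun k : K => [(⟨(1, k), mem_alphK_right k⟩ : alphK K)]).subset ?_
    rintro _ ⟨k, -, rfl⟩
    exact ⟨k, rfl⟩
  let L₁ : Language (alphK K) := {w | hpart w ∈ L₀}
  refine ⟨L₁ + F, (regular_hpart hL₀).add (regular_finite F hF), ?_, ?_⟩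
  · intro h
    rw [Language.mem_add] at h
    rcases h with h | ⟨k, -, h⟩
    · exact hnil h
    · simp at h
  · ext g
    constructor
    · rintro ⟨w, hw, rfl⟩
      have hw : w ∈ L₁ + F := hw
      rw [Language.mem_add] at hw
      rcases hw with hw | ⟨k, hk, rfl⟩
      · intro h
        have h1 : ev alph (hpart w) ∈ ev alph '' L₀ := ⟨_, hw, rfl⟩
        rw [hL₀'] at h1
        apply h1
        rw [← evl_eq_ev, evl_hpart, h]
        rfl
      · intro h
        apply hk
        have := congrArg Prod.snd h
        simpa [evl] using this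
    · rintro hg
      obtain ⟨h, k⟩ := g
      by_cases hh : h = 1
      · subst hh
        have hk : k ≠ 1 := by
          rintro rfl
          exact hg rfl
        refine ⟨[⟨(1, k), mem_alphK_right k⟩], ?_, by simp [evl]⟩
        change _ ∈ L₁ + F
        rw [Language.mem_add]
        exact Or.inr ⟨k, hk, rfl⟩
      · have h1 : h ∈ ev alph '' L₀ := by rw [hL₀']; exact hh
        obtain ⟨u, hu, rfl⟩ := h1
        by_cases hk : k = 1
        · subst hk
          refine ⟨lift u, ?_, ?_⟩
          · change _ ∈ L₁ + F
            rw [Language.mem_add]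
            left
            change hpart (lift u) ∈ L₀
            rw [hpart_lift]
            exact hu
          · rw [evl_lift]; rfl
        · refine ⟨lift u ++ [⟨(1, k), mem_alphK_right k⟩], ?_, ?_⟩
          · change _ ∈ L₁ + F
            rw [Language.mem_add]
            left
            change hpart (lift u ++ [⟨(1, k), mem_alphK_right k⟩]) ∈ L₀
            have h2 : hpart (lift (K := K) u ++ [⟨(1, k), mem_alphK_right k⟩]) = u := by
              rw [hpart_append, hpart_lift]
              have h4 : hpart [(⟨(1, k), mem_alphK_right k⟩ : alphK K)] = [] := by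
                unfold hpart
                simp [hk]
              rw [h4, List.append_nil]
            rw [h2]
            exact hu
          · rw [evl_append, evl_lift]
            simp [evl, ev]

/-- The centre of `H₂` is trivial. -/
theorem center_trivial {g : H2} (hg : ∀ h : H2, h * g = g * h) : g = 1 := by
  apply Subtype.ext
  ext a
  change g.1 a = a
  have key : ∀ b : ℤ, b ≠ a → g.1 a = a ∨ g.1 a = b := by
    intro b hb
    have h1 := hg ⟨Equiv.swap a b, swap_mem a b⟩
    have h2 : Equiv.swap a b * g.1 = g.1 * Equiv.swap a b := congrArg Subtype.val h1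
    have h3 : Equiv.swap a b (g.1 a) = g.1 b := by
      have := congrArg (fun p : Equiv.Perm ℤ => p a) h2
      simpa using this
    by_contra hcon
    rw [not_or] at hcon
    rw [Equiv.swap_apply_of_ne_of_ne hcon.1 hcon.2] at h3
    exact hb (g.1.injective h3).symm
  rcases key (a + 1) (by omega) with h | h
  · exact h
  · rcases key (a + 2) (by omega) with h' | h'
    · exact h'
    · omega

omit [Finite K] in
theorem center_prod (x : H2 × K) : x ∈ Subgroup.center (H2 × K) ↔
    x.1 = 1 ∧ x.2 ∈ Subgroup.center K := by
  rw [Subgroup.mem_center_iff, Subgroup.mem_center_iff]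
  constructor
  · intro h
    constructor
    · apply center_trivial
      intro g
      exact congrArg Prod.fst (h (g, 1))
    · intro g
      exact congrArg Prod.snd (h (1, g))
  · rintro ⟨h1, h2⟩ ⟨g, k⟩
    ext1
    · change g * x.1 = x.1 * g
      rw [h1, mul_one, one_mul]
    · exact h2 k

end

/-- An isomorphism `H₂ × K ≃ H₂ × K'` restricts to an isomorphism of the centres of `K` and
`K'`. -/
theorem card_center_eq {K K' : Type} [Group K] [Finite K] [Group K'] [Finite K']
    (e : (H2 × K) ≃* (H2 × K')) : Nat.card (Subgroup.center K) = Nat.card (Subgroup.center K') := by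
  have key : ∀ {K K' : Type} [Group K] [Finite K] [Group K'] [Finite K'],
      ((H2 × K) ≃* (H2 × K')) → Nat.card (Subgroup.center K) ≤ Nat.card (Subgroup.center K') := by
    intro K K' _ _ _ _ e
    have hm : ∀ k : Subgroup.center K, (e (1, (k : K))).1 = 1 ∧
        (e (1, (k : K))).2 ∈ Subgroup.center K' := by
      intro k
      rw [← center_prod]
      have h1 : ((1 : H2), (k : K)) ∈ Subgroup.center (H2 × K) := (center_prod _).mpr ⟨rfl, k.2⟩
      rw [Subgroup.mem_center_iff] at h1 ⊢
      intro g
      obtain ⟨g', rfl⟩ := e.surjective g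
      rw [← map_mul, ← map_mul, h1]
    apply Nat.card_le_card_of_injective
      (fun k : Subgroup.center K => (⟨(e (1, (k : K))).2, (hm k).2⟩ : Subgroup.center K'))
    intro k l h
    have h1 : (e (1, (k : K))).2 = (e (1, (l : K))).2 := congrArg Subtype.val h
    have h2 : e (1, (k : K)) = e (1, (l : K)) := Prod.ext ((hm k).1.trans (hm l).1.symm) h1
    have h3 := e.injective h2
    exact Subtype.ext (congrArg Prod.snd h3)
  exact le_antisymm (key e) (key e.symm)

end Pool.Agent.KS6_95.EH
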